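import Mathlib

/-! Finite products of Bernoulli weights: elementary lemmas (helper64). -/

set_option autoImplicit false

namespace Pool.Agent.H64

open Finset

section Cyl

variable {ι : Type*} [Fintype ι]

/-- weight of one label -/
def bern (p : ℝ) (b : Bool) : ℝ := if b = true then p else 1 - p

/-- weight of a labelling -/
def W (p : ℝ) (b : ι → Bool) : ℝ := ∏ e, bern p (b e)

lemma bern_nonneg {p : ℝ} (h0 : 0 ≤ p) (h1 : p ≤ 1) (b : Bool) : 0 ≤ bern p b := by
  unfold bern; split <;> linarith

lemma W_nonneg {p : ℝ} (h0 : 0 ≤ p) (h1 : p ≤ 1) (b : ι → Bool) : 0 ≤ W p b :=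
  Finset.prod_nonneg fun _ _ => bern_nonneg h0 h1 _

lemma sum_bern (p : ℝ) : ∑ b : Bool, bern p b = 1 := by
  simp [bern]

lemma cyl_prob [DecidableEq ι] (p : ℝ) (F : Finset ι) (c : ι → Bool) :
    ∑ b : ι → Bool, (if ∀ e ∈ F, b e = c e then W p b else 0) = ∏ e ∈ F, bern p (c e) := by
  have h1 : ∀ b : ι → Bool, (if ∀ e ∈ F, b e = c e then W p b else 0)
      = ∏ e, (if e ∈ F → b e = c e then bern p (b e) else 0) := by
    intro b
    split_ifs with hb
    · unfold W
      refine Finset.prod_congr rfl fun e _ => ?_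
      rw [if_pos (hb e)]
    · push Not at hb
      obtain ⟨e, he, hne⟩ := hb
      symm
      apply Finset.prod_eq_zero (Finset.mem_univ e)
      rw [if_neg]
      intro h
      exact hne (h he)
  simp_rw [h1]
  have h2 := Finset.prod_univ_sum (fun _ : ι => (Finset.univ : Finset Bool))
    (fun (e : ι) (β : Bool) => if e ∈ F → β = c e then bern p β else 0)
  rw [Fintype.piFinset_univ] at h2
  rw [← h2]
  rw [← Finset.prod_subset (Finset.subset_univ F)]
  · refine Finset.prod_congr rfl fun e he => ?_
    simp only [he, true_imp_iff]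
    rw [Finset.sum_ite_eq']
    simp
  · intro e _ he
    simp only [he, false_imp_iff, if_true]
    exact sum_bern p

lemma sum_W [DecidableEq ι] (p : ℝ) : ∑ b : ι → Bool, W p b = 1 := by
  have := cyl_prob (ι := ι) p ∅ (fun _ => true)
  simpa using this

/-- the product without the factor `e` -/
lemma W_eq_mul [DecidableEq ι] (p : ℝ) (b : ι → Bool) (e : ι) :
    W p b = bern p (b e) * ∏ i ∈ Finset.univ.erase e, bern p (b i) := by
  unfold W
  exact (Finset.mul_prod_erase Finset.univ (fun i => bern p (b i)) (Finset.mem_univ e)).symm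

/-- An event that does not look at the label `e` is independent of that label. -/
lemma sum_indep_coord [DecidableEq ι] (p : ℝ) (e : ι) (P : (ι → Bool) → Prop) [DecidablePred P]
    (hP : ∀ b β, P b → P (Function.update b e β)) (β : Bool) :
    ∑ b : ι → Bool, (if P b ∧ b e = β then W p b else 0) =
      bern p β * ∑ b : ι → Bool, (if P b then W p b else 0) := by
  let R : (ι → Bool) → ℝ := fun b => ∏ i ∈ Finset.univ.erase e, bern p (b i)
  have hR : ∀ b β, R (Function.update b e β) = R b := by
    intro b β
    refine Finset.prod_congr rfl fun i hi => ?_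
    rw [Function.update_of_ne (Finset.ne_of_mem_erase hi)]
  have hPiff : ∀ b β, P (Function.update b e β) ↔ P b := by
    intro b β
    constructor
    · intro h
      have := hP _ (b e) h
      rwa [Function.update_idem, Function.update_eq_self] at this
    · exact hP b β
  -- the weight of the rest, on the slice `b e = β`
  let Z : Bool → ℝ := fun β => ∑ b : ι → Bool, (if P b ∧ b e = β then R b else 0)
  have hZ : ∀ β, ∑ b : ι → Bool, (if P b ∧ b e = β then W p b else 0) = bern p β * Z β := by
    intro β
    simp only [Z]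
    rw [Finset.mul_sum]
    refine Finset.sum_congr rfl fun b _ => ?_
    by_cases h : P b ∧ b e = β
    · rw [if_pos h, if_pos h, W_eq_mul p b e, h.2]
    · rw [if_neg h, if_neg h, mul_zero]
  have hZZ : ∀ β, Z β = Z (!β) := by
    intro β
    simp only [Z]
    have hinv : Function.Involutive (fun b : ι → Bool => Function.update b e (!b e)) := by
      intro b
      simp
    rw [← Equiv.sum_comp hinv.toPerm]
    refine Finset.sum_congr rfl fun b _ => ?_
    simp only [Function.Involutive.coe_toPerm, Function.update_self, hPiff, hR]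
    by_cases h1 : P b
    · by_cases h2 : b e = β
      · simp [h1, h2]
      · have h3 : b e = !β := by
          revert h2
          cases b e <;> cases β <;> simp
        simp [h1, h3]
    · simp [h1]
  have hsplit : ∑ b : ι → Bool, (if P b then W p b else 0) =
      ∑ b : ι → Bool, (if P b ∧ b e = true then W p b else 0) +
      ∑ b : ι → Bool, (if P b ∧ b e = false then W p b else 0) := by
    rw [← Finset.sum_add_distrib]
    refine Finset.sum_congr rfl fun b _ => ?_
    by_cases h1 : P b <;> cases h2 : b e <;> simp [h1]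
  have hft : Z false = Z true := hZZ false
  have hβ : Z β = Z true := by
    cases β
    · exact hft
    · rfl
  rw [hZ, hsplit, hZ, hZ, hft, hβ]
  have : bern p true + bern p false = 1 := by simp [bern]
  linear_combination (-(bern p β * Z true)) * this

/-- The union of two independent labellings. -/
lemma sum_or [DecidableEq ι] (p₁ p₂ : ℝ) (f : (ι → Bool) → ℝ) :
    ∑ b₁ : ι → Bool, ∑ b₂ : ι → Bool, W p₁ b₁ * W p₂ b₂ * f (fun e => b₁ e || b₂ e) =
      ∑ b : ι → Bool, W (p₁ + p₂ - p₁ * p₂) b * f b := by
  have h1 : ∀ b : ι → Bool, W (p₁ + p₂ - p₁ * p₂) b =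
      ∑ b₁ : ι → Bool, ∑ b₂ : ι → Bool,
        if (fun e => b₁ e || b₂ e) = b then W p₁ b₁ * W p₂ b₂ else 0 := by
    intro b
    have h2 : ∀ b₁ b₂ : ι → Bool, (if (fun e => b₁ e || b₂ e) = b then W p₁ b₁ * W p₂ b₂ else 0) =
        ∏ e, (if (b₁ e || b₂ e) = b e then bern p₁ (b₁ e) * bern p₂ (b₂ e) else 0) := by
      intro b₁ b₂
      split_ifs with h
      · unfold W
        rw [← Finset.prod_mul_distrib]
        refine Finset.prod_congr rfl fun e _ => ?_
        rw [if_pos (congrFun h e)]
      · obtain ⟨e, he⟩ := Function.ne_iff.mp h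
        symm
        apply Finset.prod_eq_zero (Finset.mem_univ e)
        rw [if_neg he]
    simp_rw [h2]
    rw [← Fintype.sum_prod_type' (f := fun b₁ b₂ : ι → Bool =>
      ∏ e, (if (b₁ e || b₂ e) = b e then bern p₁ (b₁ e) * bern p₂ (b₂ e) else 0))]
    have h3 := Finset.prod_univ_sum (fun _ : ι => (Finset.univ : Finset (Bool × Bool)))
      (fun (e : ι) (β : Bool × Bool) =>
        if (β.1 || β.2) = b e then bern p₁ β.1 * bern p₂ β.2 else 0)
    rw [Fintype.piFinset_univ] at h3
    have h4 : ∑ x : (ι → Bool) × (ι → Bool),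
        ∏ e, (if (x.1 e || x.2 e) = b e then bern p₁ (x.1 e) * bern p₂ (x.2 e) else 0) =
        ∑ x : ι → Bool × Bool,
        ∏ e, (if ((x e).1 || (x e).2) = b e then bern p₁ (x e).1 * bern p₂ (x e).2 else 0) := by
      apply Fintype.sum_equiv (Equiv.arrowProdEquivProdArrow ι (fun _ => Bool) (fun _ => Bool)).symm
      intro x
      rfl
    rw [h4, ← h3]
    unfold W
    refine Finset.prod_congr rfl fun e _ => ?_
    rw [Fintype.sum_prod_type]
    cases b e <;> simp [bern] <;> ring
  simp_rw [h1]
  have h5 : ∀ b : ι → Bool, (∑ b₁ : ι → Bool, ∑ b₂ : ι → Bool,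
        if (fun e => b₁ e || b₂ e) = b then W p₁ b₁ * W p₂ b₂ else 0) * f b =
      ∑ b₁ : ι → Bool, ∑ b₂ : ι → Bool,
        if (fun e => b₁ e || b₂ e) = b then W p₁ b₁ * W p₂ b₂ * f b else 0 := by
    intro b
    rw [Finset.sum_mul]
    refine Finset.sum_congr rfl fun b₁ _ => ?_
    rw [Finset.sum_mul]
    refine Finset.sum_congr rfl fun b₂ _ => ?_
    rw [ite_mul, zero_mul]
  simp_rw [h5]
  symm
  rw [Finset.sum_comm]
  refine Finset.sum_congr rfl fun b₁ _ => ?_
  rw [Finset.sum_comm]
  refine Finset.sum_congr rfl fun b₂ _ => ?_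
  rw [Finset.sum_ite_eq]
  simp

end Cyl

end Pool.Agent.H64
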