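import Mathlib
import Pool.Agent.H64.ProdBool

/-! Depth-first search in a random graph (helper64). -/

set_option autoImplicit false

namespace Pool.Agent.H64

open Finset Classical

/-- state of the depth first search -/
structure St (n : ℕ) where
  stk : List (Fin n)
  un : Finset (Fin n)
  don : Finset (Fin n)
  q : Finset (Sym2 (Fin n))
  pos : ℕ

variable {n : ℕ}

/-- the starting state -/
def St.init (n : ℕ) : St n := ⟨[], Finset.univ, ∅, ∅, 0⟩

/-- the next query -/
noncomputable def ask (N : ℕ) (s : St n) : Option (Sym2 (Fin n)) :=
  if N ≤ s.q.card then none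
  else match s.stk with
    | [] => none
    | v :: _ => if h : ∃ u ∈ s.un, s(v, u) ∉ s.q then some s(v, h.choose) else none

/-- the new state, given the answer -/
noncomputable def upd (N : ℕ) (s : St n) (β : Bool) : St n :=
  if N ≤ s.q.card then s
  else match s.stk with
    | [] => if h : ∃ u, u ∈ s.un then
        ⟨[h.choose], s.un.erase h.choose, s.don, s.q, s.pos⟩ else s
    | v :: t => if h : ∃ u ∈ s.un, s(v, u) ∉ s.q then
        (if β = true then
          ⟨h.choose :: v :: t, s.un.erase h.choose, s.don, insert s(v, h.choose) s.q, s.pos + 1⟩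
        else ⟨v :: t, s.un, s.don, insert s(v, h.choose) s.q, s.pos⟩)
        else ⟨t, s.un, insert v s.don, s.q, s.pos⟩

/-- the answer fed to the search -/
noncomputable def answer (b : Sym2 (Fin n) → Bool) (o : Option (Sym2 (Fin n))) : Bool :=
  match o with
  | none => false
  | some e => b e

noncomputable def run (N : ℕ) (b : Sym2 (Fin n) → Bool) : ℕ → St n
  | 0 => St.init n
  | t + 1 => upd N (run N b t) (answer b (ask N (run N b t)))

/-- Case analysis of a step. -/
lemma upd_cases (N : ℕ) (s : St n) (b : Sym2 (Fin n) → Bool) (P : St n → St n → Prop)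
    (hstop : N ≤ s.q.card → P s s)
    (hend : s.q.card < N → s.stk = [] → s.un = ∅ → P s s)
    (hnew : ∀ u ∈ s.un, s.q.card < N → s.stk = [] → P s ⟨[u], s.un.erase u, s.don, s.q, s.pos⟩)
    (hpos : ∀ v t u, u ∈ s.un → s(v, u) ∉ s.q → s.q.card < N → s.stk = v :: t →
      b s(v, u) = true → ask N s = some s(v, u) →
      P s ⟨u :: v :: t, s.un.erase u, s.don, insert s(v, u) s.q, s.pos + 1⟩)
    (hneg : ∀ v t u, u ∈ s.un → s(v, u) ∉ s.q → s.q.card < N → s.stk = v :: t →
      b s(v, u) = false → ask N s = some s(v, u) →
      P s ⟨v :: t, s.un, s.don, insert s(v, u) s.q, s.pos⟩)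
    (hpop : ∀ v t, s.q.card < N → s.stk = v :: t → (∀ u ∈ s.un, s(v, u) ∈ s.q) →
      P s ⟨t, s.un, insert v s.don, s.q, s.pos⟩) :
    P s (upd N s (answer b (ask N s))) := by
  obtain ⟨stk, un, don, q, pos⟩ := s
  simp only at *
  by_cases hN : N ≤ q.card
  · simp only [upd, hN, if_true]
    exact hstop hN
  · have hN' : q.card < N := by omega
    cases stk with
    | nil =>
      by_cases hu : ∃ u, u ∈ un
      · simp only [upd, hN, if_false, dif_pos hu]
        exact hnew _ hu.choose_spec hN' rfl
      · simp only [upd, hN, if_false, dif_neg hu]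
        refine hend hN' rfl ?_
        push Not at hu
        exact Finset.eq_empty_of_forall_notMem hu
    | cons v t =>
      by_cases hu : ∃ u ∈ un, s(v, u) ∉ q
      · have hask : ask N (⟨v :: t, un, don, q, pos⟩ : St n) = some s(v, hu.choose) := by
          simp only [ask, hN, if_false, dif_pos hu]
        have hspec := hu.choose_spec
        by_cases hb : b s(v, hu.choose) = true
        · have := hpos v t hu.choose hspec.1 hspec.2 hN' rfl hb hask
          simp only [hask]
          simp only [upd, hN, if_false, dif_pos hu, answer, hb, if_true]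
          exact this
        · have hb' : b s(v, hu.choose) = false := by simpa using hb
          have := hneg v t hu.choose hspec.1 hspec.2 hN' rfl hb' hask
          simp only [hask]
          simp only [upd, hN, if_false, dif_pos hu, answer, hb']
          exact this
      · simp only [upd, hN, if_false, dif_neg hu]
        push Not at hu
        exact hpop v t hN' rfl hu

/-- Updating with either answer when a query is asked. -/
lemma upd_ask (N : ℕ) (s : St n) (e : Sym2 (Fin n)) (h : ask N s = some e) :
    e ∉ s.q ∧ (∀ β, (upd N s β).q = insert e s.q) ∧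
      (upd N s true).pos = s.pos + 1 ∧ (upd N s false).pos = s.pos := by
  obtain ⟨stk, un, don, q, pos⟩ := s
  simp only at *
  by_cases hN : N ≤ q.card
  · simp only [ask, hN, if_true] at h
    exact absurd h (by simp)
  · cases stk with
    | nil => simp only [ask, hN, if_false] at h; exact absurd h (by simp)
    | cons v t =>
      by_cases hu : ∃ u ∈ un, s(v, u) ∉ q
      · simp only [ask, hN, if_false, dif_pos hu, Option.some.injEq] at h
        have hspec := hu.choose_spec
        subst h
        refine ⟨hspec.2, ?_, ?_, ?_⟩
        · intro β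
          simp only [upd, hN, if_false, dif_pos hu]
          split_ifs <;> rfl
        · simp only [upd, hN, if_false, dif_pos hu, if_true]
        · simp only [upd, hN, if_false, dif_pos hu]
          simp
      · simp only [ask, hN, if_false, dif_neg hu] at h
        exact absurd h (by simp)

lemma upd_noask (N : ℕ) (s : St n) (h : ask N s = none) (β : Bool) :
    (upd N s β).q = s.q ∧ (upd N s β).pos = s.pos := by
  obtain ⟨stk, un, don, q, pos⟩ := s
  simp only at *
  by_cases hN : N ≤ q.card
  · simp only [upd, hN, if_true]; exact ⟨trivial, trivial⟩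
  · cases stk with
    | nil =>
      by_cases hu : ∃ u, u ∈ un
      · simp only [upd, hN, if_false, dif_pos hu]; exact ⟨trivial, trivial⟩
      · simp only [upd, hN, if_false, dif_neg hu]; exact ⟨trivial, trivial⟩
    | cons v t =>
      by_cases hu : ∃ u ∈ un, s(v, u) ∉ q
      · simp only [ask, hN, if_false, dif_pos hu] at h
        exact absurd h (by simp)
      · simp only [upd, hN, if_false, dif_neg hu]; exact ⟨trivial, trivial⟩

lemma q_mono (N : ℕ) (s : St n) (β : Bool) : s.q ⊆ (upd N s β).q := by
  cases h : ask N s with
  | none => rw [(upd_noask N s h β).1]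
  | some e => rw [(upd_ask N s e h).2.1 β]; exact Finset.subset_insert _ _

/-- locality -/
lemma run_local (N : ℕ) (b b' : Sym2 (Fin n) → Bool) (t : ℕ)
    (h : ∀ e ∈ (run N b t).q, b e = b' e) : run N b' t = run N b t := by
  induction t with
  | zero => rfl
  | succ t ih =>
    have h1 : ∀ e ∈ (run N b t).q, b e = b' e := by
      intro e he
      exact h e (q_mono N _ _ he)
    have h2 := ih h1
    simp only [run]
    rw [h2]
    congr 1
    cases ha : ask N (run N b t) with
    | none => rfl
    | some e =>
      simp only [answer]
      symm
      apply h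
      simp only [run, ha]
      rw [(upd_ask N _ e ha).2.1]
      exact Finset.mem_insert_self _ _

/-- the compensated square -/
noncomputable def Mart (p : ℝ) (s : St n) : ℝ :=
  (s.pos - p * s.q.card) ^ 2 - p * (1 - p) * s.q.card

lemma mart_step (N : ℕ) (p : ℝ) (t : ℕ) :
    ∑ b : Sym2 (Fin n) → Bool, W p b * Mart p (run N b (t + 1)) =
      ∑ b : Sym2 (Fin n) → Bool, W p b * Mart p (run N b t) := by
  have h1 : ∀ g : (Sym2 (Fin n) → Bool) → ℝ, ∑ b : Sym2 (Fin n) → Bool, g b =
      ∑ s ∈ Finset.univ.image (fun b => run N b t), ∑ b : Sym2 (Fin n) → Bool,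
        if run N b t = s then g b else 0 := by
    intro g
    rw [Finset.sum_comm]
    refine Finset.sum_congr rfl fun b _ => ?_
    rw [Finset.sum_ite_eq]
    simp
  rw [h1, h1 (fun b => W p b * Mart p (run N b t))]
  refine Finset.sum_congr rfl fun s _ => ?_
  have h2 : ∀ b : Sym2 (Fin n) → Bool,
      (if run N b t = s then W p b * Mart p (run N b t) else 0) =
      (if run N b t = s then W p b else 0) * Mart p s := by
    intro b
    split_ifs with h
    · rw [h]
    · ring
  simp_rw [h2]
  rw [← Finset.sum_mul]
  cases ha : ask N s with
  | none =>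
    have h3 : ∀ b : Sym2 (Fin n) → Bool,
        (if run N b t = s then W p b * Mart p (run N b (t + 1)) else 0) =
        (if run N b t = s then W p b else 0) * Mart p s := by
      intro b
      split_ifs with h
      · simp only [run, h, ha]
        have := upd_noask N s ha (answer b none)
        simp only [Mart, this.1, this.2]
      · ring
    simp_rw [h3]
    rw [← Finset.sum_mul]
  | some e =>
    obtain ⟨he, hq, hp1, hp0⟩ := upd_ask N s e ha
    have h3 : ∀ b : Sym2 (Fin n) → Bool,
        (if run N b t = s then W p b * Mart p (run N b (t + 1)) else 0) =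
        (if run N b t = s ∧ b e = true then W p b else 0) * Mart p (upd N s true) +
        (if run N b t = s ∧ b e = false then W p b else 0) * Mart p (upd N s false) := by
      intro b
      by_cases h : run N b t = s
      · simp only [run, h, ha, answer, if_true, true_and]
        cases hb : b e <;> simp
      · simp [h]
    simp_rw [h3]
    rw [Finset.sum_add_distrib, ← Finset.sum_mul, ← Finset.sum_mul]
    have hP : ∀ (b : Sym2 (Fin n) → Bool) (β : Bool), run N b t = s →
        run N (Function.update b e β) t = s := by
      intro b β h
      rw [← h]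
      apply run_local
      intro e' he'
      rw [h] at he'
      have : e' ≠ e := fun hc => he (hc ▸ he')
      rw [Function.update_of_ne this]
    have h4 := sum_indep_coord p e (fun b : Sym2 (Fin n) → Bool => run N b t = s) hP true
    have h5 := sum_indep_coord p e (fun b : Sym2 (Fin n) → Bool => run N b t = s) hP false
    have h6 : p * Mart p (upd N s true) + (1 - p) * Mart p (upd N s false) = Mart p s := by
      simp only [Mart, hq, hp1, hp0, Finset.card_insert_of_notMem he]
      push_cast
      ring
    have h7 : bern p true = p := by simp [bern]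
    have h8 : bern p false = 1 - p := by simp [bern]
    rw [h7] at h4
    rw [h8] at h5
    rw [← h6]
    calc _ = (p * ∑ b : Sym2 (Fin n) → Bool, if run N b t = s then W p b else 0) *
          Mart p (upd N s true) +
          ((1 - p) * ∑ b : Sym2 (Fin n) → Bool, if run N b t = s then W p b else 0) *
          Mart p (upd N s false) := by
            congr 1 <;> congr 1
      _ = _ := by ring

lemma mart_zero (N : ℕ) (p : ℝ) (t : ℕ) :
    ∑ b : Sym2 (Fin n) → Bool, W p b * Mart p (run N b t) = 0 := by
  induction t with
  | zero => simp [run, St.init, Mart]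
  | succ t ih => rw [mart_step, ih]

end Pool.Agent.H64
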