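import Mathlib
import Pool.Agent.H64.Dfs

/-! Depth-first search in a random graph: long paths (helper64). -/

set_option autoImplicit false

namespace Pool.Agent.H64

open Finset Classical

variable {n : ℕ}

/-- invariants of the search -/
structure Inv (N : ℕ) (b : Sym2 (Fin n) → Bool) (s : St n) : Prop where
  nodup : s.stk.Nodup
  stk_un : ∀ v ∈ s.stk, v ∉ s.un
  stk_don : ∀ v ∈ s.stk, v ∉ s.don
  un_don : ∀ v ∈ s.don, v ∉ s.un
  card : s.stk.length + s.un.card + s.don.card = n
  chain : s.stk.IsChain (fun u v => b s(u, v) = true)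
  asked : ∀ v ∈ s.don, ∀ u ∈ s.un, s(v, u) ∈ s.q
  qN : s.q.card ≤ N
  pos : s.pos ≤ s.don.card + s.stk.length

lemma inv_init (N : ℕ) (b : Sym2 (Fin n) → Bool) : Inv N b (St.init n) := by
  constructor <;> simp [St.init]

lemma inv_step (N : ℕ) (b : Sym2 (Fin n) → Bool) (s : St n) (hs : Inv N b s) :
    Inv N b (upd N s (answer b (ask N s))) := by
  refine upd_cases N s b (fun s s' => Inv N b s → Inv N b s') ?_ ?_ ?_ ?_ ?_ ?_ hs
  · intro _ h; exact h
  · intro _ _ _ h; exact h
  · intro u hu hN hst h
    have hcard := h.card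
    rw [hst] at hcard
    have hpos := h.pos
    rw [hst] at hpos
    have h1 : (s.un.erase u).card + 1 = s.un.card := Finset.card_erase_add_one hu
    refine ⟨by simp, ?_, ?_, ?_, ?_, by simp, ?_, h.qN, ?_⟩
    · simp
    · intro v hv
      simp only [List.mem_singleton] at hv
      subst hv
      intro hd
      exact h.un_don _ hd hu
    · intro v hv hv'
      exact h.un_don v hv (Finset.mem_of_mem_erase hv')
    · simp only [List.length_cons, List.length_nil] at hcard ⊢
      omega
    · intro v hv w hw
      exact h.asked v hv w (Finset.mem_of_mem_erase hw)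
    · simp only [List.length_cons, List.length_nil] at hpos ⊢
      omega
  · intro v t u hu hq hN hst hb _ h
    have hcard := h.card
    have hpos := h.pos
    have hnodup := h.nodup
    have hsu := h.stk_un
    have hsd := h.stk_don
    have hchain := h.chain
    rw [hst] at hcard hpos hnodup hsu hsd hchain
    have h1 : (s.un.erase u).card + 1 = s.un.card := Finset.card_erase_add_one hu
    have huvt : u ∉ v :: t := fun hc => hsu u hc hu
    refine ⟨?_, ?_, ?_, ?_, ?_, ?_, ?_, ?_, ?_⟩
    · exact List.nodup_cons.mpr ⟨huvt, hnodup⟩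
    · intro w hw hw'
      rcases List.mem_cons.mp hw with rfl | hw2
      · simp at hw'
      · exact hsu w hw2 (Finset.mem_of_mem_erase hw')
    · intro w hw hw'
      rcases List.mem_cons.mp hw with rfl | hw2
      · exact h.un_don _ hw' hu
      · exact hsd w hw2 hw'
    · intro w hw hw'
      exact h.un_don w hw (Finset.mem_of_mem_erase hw')
    · simp only [List.length_cons] at hcard ⊢
      omega
    · rw [List.isChain_cons_cons]
      refine ⟨?_, hchain⟩
      rw [Sym2.eq_swap]
      exact hb
    · intro w hw w' hw'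
      exact Finset.mem_insert_of_mem (h.asked w hw w' (Finset.mem_of_mem_erase hw'))
    · simp only [Finset.card_insert_of_notMem hq]
      omega
    · simp only [List.length_cons] at hpos ⊢
      omega
  · intro v t u hu hq hN hst hb _ h
    have hcard := h.card
    have hpos := h.pos
    have hnodup := h.nodup
    have hsu := h.stk_un
    have hsd := h.stk_don
    have hchain := h.chain
    rw [hst] at hcard hpos hnodup hsu hsd hchain
    refine ⟨hnodup, hsu, hsd, h.un_don, hcard, hchain, ?_, ?_, hpos⟩
    · intro w hw w' hw'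
      exact Finset.mem_insert_of_mem (h.asked w hw w' hw')
    · simp only [Finset.card_insert_of_notMem hq]
      omega
  · intro v t hN hst hq h
    have hcard := h.card
    have hpos := h.pos
    have hnodup := h.nodup
    have hsu := h.stk_un
    have hsd := h.stk_don
    have hchain := h.chain
    rw [hst] at hcard hpos hnodup hsu hsd hchain
    have hvd : v ∉ s.don := hsd v (List.mem_cons_self)
    have hnd := List.nodup_cons.mp hnodup
    refine ⟨hnd.2, ?_, ?_, ?_, ?_, ?_, ?_, h.qN, ?_⟩
    · intro w hw
      exact hsu w (List.mem_cons_of_mem _ hw)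
    · intro w hw hw'
      rcases Finset.mem_insert.mp hw' with rfl | hw2
      · exact hnd.1 hw
      · exact hsd w (List.mem_cons_of_mem _ hw) hw2
    · intro w hw hw'
      rcases Finset.mem_insert.mp hw with rfl | hw2
      · exact hsu w (List.mem_cons_self) hw'
      · exact h.un_don w hw2 hw'
    · simp only [List.length_cons, Finset.card_insert_of_notMem hvd] at hcard ⊢
      omega
    · exact hchain.tail
    · intro w hw w' hw'
      rcases Finset.mem_insert.mp hw with rfl | hw2
      · exact hq w' hw'
      · exact h.asked w hw2 w' hw'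
    · simp only [List.length_cons, Finset.card_insert_of_notMem hvd] at hpos ⊢
      omega

lemma inv_run (N : ℕ) (b : Sym2 (Fin n) → Bool) (t : ℕ) : Inv N b (run N b t) := by
  induction t with
  | zero => exact inv_init N b
  | succ t ih => exact inv_step N b _ ih

lemma card_mul_le {A B : Finset (Fin n)} {Q : Finset (Sym2 (Fin n))} (hAB : ∀ v ∈ A, v ∉ B)
    (h : ∀ v ∈ A, ∀ u ∈ B, s(v, u) ∈ Q) : A.card * B.card ≤ Q.card := by
  rw [← Finset.card_product]
  apply Finset.card_le_card_of_injOn (fun p : Fin n × Fin n => s(p.1, p.2))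
  · intro p hp
    have hp' := Finset.mem_product.mp (Finset.mem_coe.mp hp)
    exact Finset.mem_coe.mpr (h _ hp'.1 _ hp'.2)
  · intro p hp p' hp' heq
    have hp1 := Finset.mem_product.mp (Finset.mem_coe.mp hp)
    have hp2 := Finset.mem_product.mp (Finset.mem_coe.mp hp')
    simp only [Sym2.eq_iff] at heq
    rcases heq with ⟨h1, h2⟩ | ⟨h1, h2⟩
    · exact Prod.ext h1 h2
    · exact absurd (h1 ▸ hp2.2) (hAB _ hp1.1)

/-- halted states -/
def Halted (N : ℕ) (s : St n) : Prop := N ≤ s.q.card ∨ (s.stk = [] ∧ s.un = ∅)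

def Pot (s : St n) : ℕ := s.q.card + 2 * s.don.card + s.stk.length

lemma pot_step (N : ℕ) (b : Sym2 (Fin n) → Bool) (s : St n) (hs : Inv N b s) :
    (Halted N s ∧ upd N s (answer b (ask N s)) = s) ∨
      (Pot s + 1 ≤ Pot (upd N s (answer b (ask N s)))) := by
  refine upd_cases N s b
    (fun s s' => Inv N b s → ((Halted N s ∧ s' = s) ∨ (Pot s + 1 ≤ Pot s'))) ?_ ?_ ?_ ?_ ?_ ?_ hs
  · intro h _; exact Or.inl ⟨Or.inl h, rfl⟩
  · intro _ h1 h2 _; exact Or.inl ⟨Or.inr ⟨h1, h2⟩, rfl⟩
  · intro u hu hN hst h
    right
    simp only [Pot, hst, List.length_cons, List.length_nil]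
    omega
  · intro v t u hu hq hN hst hb _ h
    right
    simp only [Pot, hst, List.length_cons, Finset.card_insert_of_notMem hq]
    omega
  · intro v t u hu hq hN hst hb _ h
    right
    simp only [Pot, hst, List.length_cons, Finset.card_insert_of_notMem hq]
    omega
  · intro v t hN hst hq h
    right
    have hvd : v ∉ s.don := h.stk_don v (by rw [hst]; exact List.mem_cons_self)
    simp only [Pot, hst, List.length_cons, Finset.card_insert_of_notMem hvd]
    omega

lemma halt_or (N : ℕ) (b : Sym2 (Fin n) → Bool) (t : ℕ) :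
    Halted N (run N b t) ∨ t ≤ Pot (run N b t) := by
  induction t with
  | zero => right; omega
  | succ t ih =>
    simp only [run]
    rcases pot_step N b (run N b t) (inv_run N b t) with ⟨h1, h2⟩ | h
    · left; rw [h2]; exact h1
    · rcases ih with ih | ih
      · -- halted states do not change, contradiction or fine
        rcases ih with ih | ⟨ih1, ih2⟩
        · left; left
          exact le_trans ih (Finset.card_le_card (q_mono N _ _))
        · right
          exfalso
          have h3 : upd N (run N b t) (answer b (ask N (run N b t))) = run N b t := by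
            by_cases hN : N ≤ (run N b t).q.card
            · simp only [upd, hN, if_true]
            · have : ¬ ∃ u, u ∈ (run N b t).un := by rw [ih2]; simp
              simp only [upd, hN, if_false]
              split
              · rw [dif_neg this]
              · rename_i hc
                rw [ih1] at hc
                exact absurd hc (by simp)
          rw [h3] at h
          omega
      · right; omega

lemma halted_run (N : ℕ) (b : Sym2 (Fin n) → Bool) : Halted N (run N b (N + 2 * n + 1)) := by
  rcases halt_or N b (N + 2 * n + 1) with h | h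
  · exact h
  · exfalso
    have h1 := inv_run N b (N + 2 * n + 1)
    have h2 := h1.qN
    have h3 := h1.card
    unfold Pot at h
    omega

/-- there is no path on `ℓ` vertices -/
def NoLong (ℓ : ℕ) (b : Sym2 (Fin n) → Bool) : Prop :=
  ∀ l : List (Fin n), l.Nodup → l.IsChain (fun u v => b s(u, v) = true) → l.length < ℓ

lemma don_small (N ℓ : ℕ) (b : Sym2 (Fin n) → Bool) (hb : NoLong ℓ b) (hn : 0 < n)
    (H2 : ∀ s u : ℕ, n ≤ 3 * s → 3 * s < n + 3 → n ≤ s + u + ℓ → N < s * u) (t : ℕ) :
    3 * (run N b t).don.card < n := by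
  induction t with
  | zero => simp [run, St.init, hn]
  | succ t ih =>
    have hinv := inv_run N b t
    have hinv' := inv_run N b (t + 1)
    have h1 : (run N b (t + 1)).don.card ≤ (run N b t).don.card + 1 := by
      simp only [run]
      refine upd_cases N (run N b t) b (fun s s' => s'.don.card ≤ s.don.card + 1)
        ?_ ?_ ?_ ?_ ?_ ?_
      · intro _; omega
      · intro _ _ _; omega
      · intro _ _ _ _; simp
      · intros; simp
      · intros; simp
      · intro v t' hN hst hq
        exact Finset.card_insert_le _ _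
    by_contra hcon
    push Not at hcon
    have h2 := hb _ hinv'.nodup hinv'.chain
    have h3 := hinv'.card
    have h4 := card_mul_le hinv'.un_don hinv'.asked
    have h5 := hinv'.qN
    have h6 := H2 (run N b (t + 1)).don.card (run N b (t + 1)).un.card hcon (by omega) (by omega)
    omega

lemma noLong_dev (N ℓ : ℕ) (p x : ℝ) (b : Sym2 (Fin n) → Bool) (hb : NoLong ℓ b) (hn : 0 < n)
    (H1 : ∀ s u : ℕ, 3 * s < n → n ≤ s + u + ℓ → p * N - x - ℓ ≤ s → N < s * u)
    (H2 : ∀ s u : ℕ, n ≤ 3 * s → 3 * s < n + 3 → n ≤ s + u + ℓ → N < s * u) :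
    (run N b (N + 2 * n + 1)).q.card = N ∧
      ((run N b (N + 2 * n + 1)).pos : ℝ) - p * N ≤ -x := by
  have hinv := inv_run N b (N + 2 * n + 1)
  have hd := don_small N ℓ b hb hn H2 (N + 2 * n + 1)
  have hq : (run N b (N + 2 * n + 1)).q.card = N := by
    rcases halted_run N b with h | ⟨h1, h2⟩
    · exact le_antisymm hinv.qN h
    · exfalso
      have h3 := hinv.card
      rw [h1, h2] at h3
      simp only [List.length_nil, Finset.card_empty] at h3
      omega
  refine ⟨hq, ?_⟩
  by_contra hcon
  push Not at hcon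
  have h2 := hb _ hinv.nodup hinv.chain
  have h3 := hinv.card
  have h4 := card_mul_le hinv.un_don hinv.asked
  have h5 := hinv.pos
  have h6 : ((run N b (N + 2 * n + 1)).pos : ℝ) ≤
      (run N b (N + 2 * n + 1)).don.card + ℓ := by
    have : (run N b (N + 2 * n + 1)).pos ≤ (run N b (N + 2 * n + 1)).don.card + ℓ := by omega
    exact_mod_cast this
  have h7 := H1 (run N b (N + 2 * n + 1)).don.card (run N b (N + 2 * n + 1)).un.card hd (by omega)
    (by linarith)
  omega

/-- The probability of having no path on `ℓ` vertices. -/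
lemma noLong_prob (N ℓ : ℕ) (p x : ℝ) (hp0 : 0 ≤ p) (hp1 : p ≤ 1) (hx : 0 < x) (hn : 0 < n)
    (H1 : ∀ s u : ℕ, 3 * s < n → n ≤ s + u + ℓ → p * N - x - ℓ ≤ s → N < s * u)
    (H2 : ∀ s u : ℕ, n ≤ 3 * s → 3 * s < n + 3 → n ≤ s + u + ℓ → N < s * u) :
    ∑ b : Sym2 (Fin n) → Bool, (if NoLong ℓ b then W p b else 0) ≤ p * N / x ^ 2 := by
  set T := N + 2 * n + 1 with hT
  have h0 := mart_zero (n := n) N p T
  have h1 : ∑ b : Sym2 (Fin n) → Bool, (if NoLong ℓ b then W p b else 0) * x ^ 2 ≤
      ∑ b : Sym2 (Fin n) → Bool, W p b * ((run N b T).pos - p * (run N b T).q.card : ℝ) ^ 2 := by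
    refine Finset.sum_le_sum fun b _ => ?_
    split_ifs with hb
    · apply mul_le_mul_of_nonneg_left _ (W_nonneg hp0 hp1 b)
      obtain ⟨h2, h3⟩ := noLong_dev N ℓ p x b hb hn H1 H2
      rw [← hT] at h2 h3
      rw [h2]
      nlinarith
    · rw [zero_mul]
      exact mul_nonneg (W_nonneg hp0 hp1 b) (sq_nonneg _)
  have h2 : ∑ b : Sym2 (Fin n) → Bool, W p b * ((run N b T).pos - p * (run N b T).q.card : ℝ) ^ 2
      = ∑ b : Sym2 (Fin n) → Bool, W p b * (p * (1 - p) * (run N b T).q.card) := by
    rw [← sub_eq_zero, ← Finset.sum_sub_distrib, ← h0]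
    refine Finset.sum_congr rfl fun b _ => ?_
    unfold Mart
    ring
  have h3 : ∑ b : Sym2 (Fin n) → Bool, W p b * (p * (1 - p) * (run N b T).q.card) ≤
      ∑ b : Sym2 (Fin n) → Bool, W p b * (p * N) := by
    refine Finset.sum_le_sum fun b _ => ?_
    apply mul_le_mul_of_nonneg_left _ (W_nonneg hp0 hp1 b)
    have h4 : ((run N b T).q.card : ℝ) ≤ N := by exact_mod_cast (inv_run N b T).qN
    have h5 : (0:ℝ) ≤ (run N b T).q.card := by positivity
    have h6 : p * (1 - p) ≤ p := by nlinarith
    have h7 : 0 ≤ p * (1 - p) := mul_nonneg hp0 (by linarith)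
    calc p * (1 - p) * (run N b T).q.card ≤ p * (run N b T).q.card :=
          mul_le_mul_of_nonneg_right h6 h5
      _ ≤ p * N := mul_le_mul_of_nonneg_left h4 hp0
  rw [← Finset.sum_mul, sum_W, one_mul] at h3
  rw [le_div_iff₀ (by positivity)]
  rw [← Finset.sum_mul] at h1
  linarith

end Pool.Agent.H64
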