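import Mathlib
import Pool.Agent.H64.Dfs2

/-! Long cycles in a slightly supercritical random graph (helper64). -/

set_option autoImplicit false

namespace Pool.Agent.H64

open Finset Classical

variable {n : ℕ}

/-- a cycle through `m + 1 > k` vertices -/
def LongCycle (k : ℕ) (b : Sym2 (Fin n) → Bool) : Prop :=
  ∃ (m : ℕ) (v : ℕ → Fin n), k ≤ m ∧ (∀ i ≤ m, ∀ j ≤ m, v i = v j → i = j) ∧
    (∀ i < m, b s(v i, v (i + 1)) = true) ∧ b s(v 0, v m) = true

lemma exists_path {ℓ : ℕ} (hℓ : 0 < ℓ) {b : Sym2 (Fin n) → Bool} (h : ¬ NoLong ℓ b) :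
    ∃ v : ℕ → Fin n, (∀ i < ℓ, ∀ j < ℓ, v i = v j → i = j) ∧
      ∀ i, i + 1 < ℓ → b s(v i, v (i + 1)) = true := by
  unfold NoLong at h
  push Not at h
  obtain ⟨l, hnd, hch, hlen⟩ := h
  have h0 : 0 < l.length := by omega
  refine ⟨fun i => if hi : i < l.length then l[i] else l[0], ?_, ?_⟩
  · intro i hi j hj hij
    have hi' : i < l.length := by omega
    have hj' : j < l.length := by omega
    simp only [hi', hj', dif_pos] at hij
    exact (List.Nodup.getElem_inj_iff hnd).mp hij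
  · intro i hi
    have hi' : i < l.length := by omega
    have hj' : i + 1 < l.length := by omega
    simp only [hi', hj', dif_pos]
    exact (List.isChain_iff_getElem.mp hch) i hj'

lemma sprinkle (k : ℕ) (p₁ p₂ : ℝ) (h10 : 0 ≤ p₁) (h11 : p₁ ≤ 1) (h20 : 0 ≤ p₂) (h21 : p₂ ≤ 1)
    (hk : 0 < k) :
    ∑ b : Sym2 (Fin n) → Bool, (if LongCycle k b then 0 else W (p₁ + p₂ - p₁ * p₂) b) ≤
      ∑ b : Sym2 (Fin n) → Bool, (if NoLong (3 * k) b then W p₁ b else 0) + (1 - p₂) ^ (k * k) := by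
  have h1 : ∑ b : Sym2 (Fin n) → Bool, (if LongCycle k b then 0 else W (p₁ + p₂ - p₁ * p₂) b) =
      ∑ b : Sym2 (Fin n) → Bool, W (p₁ + p₂ - p₁ * p₂) b *
        (if LongCycle k b then (0:ℝ) else 1) := by
    refine Finset.sum_congr rfl fun b _ => ?_
    split_ifs <;> simp
  rw [h1, ← sum_or p₁ p₂ (fun b => if LongCycle k b then (0:ℝ) else 1)]
  have h2 : (1 - p₂) ^ (k * k) = ∑ b : Sym2 (Fin n) → Bool, W p₁ b * (1 - p₂) ^ (k * k) := by
    rw [← Finset.sum_mul, sum_W, one_mul]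
  rw [h2, ← Finset.sum_add_distrib]
  refine Finset.sum_le_sum fun b₁ _ => ?_
  by_cases hb : NoLong (3 * k) b₁
  · rw [if_pos hb]
    have h3 : ∑ b₂ : Sym2 (Fin n) → Bool, W p₁ b₁ * W p₂ b₂ *
        (if LongCycle k (fun e => b₁ e || b₂ e) then (0:ℝ) else 1) ≤
        ∑ b₂ : Sym2 (Fin n) → Bool, W p₁ b₁ * W p₂ b₂ := by
      refine Finset.sum_le_sum fun b₂ _ => ?_
      have := mul_nonneg (W_nonneg h10 h11 b₁) (W_nonneg h20 h21 b₂)
      split_ifs
      · simpa using this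
      · simp
    rw [← Finset.mul_sum, sum_W, mul_one] at h3
    have h4 : 0 ≤ W p₁ b₁ * (1 - p₂) ^ (k * k) :=
      mul_nonneg (W_nonneg h10 h11 b₁) (pow_nonneg (by linarith) _)
    linarith
  · rw [if_neg hb, zero_add]
    obtain ⟨v, hinj, hch⟩ := exists_path (by omega) hb
    -- the pairs between the first and the last third
    set F : Finset (Sym2 (Fin n)) := (Finset.range k ×ˢ Finset.range k).image
      (fun ij : ℕ × ℕ => s(v ij.1, v (2 * k + ij.2))) with hF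
    have hFcard : F.card = k * k := by
      rw [hF, Finset.card_image_of_injOn, Finset.card_product, Finset.card_range]
      intro ij hij ij' hij' heq
      have h5 := Finset.mem_product.mp (Finset.mem_coe.mp hij)
      have h6 := Finset.mem_product.mp (Finset.mem_coe.mp hij')
      simp only [Finset.mem_range] at h5 h6
      simp only [Sym2.eq_iff] at heq
      rcases heq with ⟨h7, h8⟩ | ⟨h7, h8⟩
      · have h9 := hinj _ (by omega) _ (by omega) h7
        have h10 := hinj _ (by omega) _ (by omega) h8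
        exact Prod.ext h9 (by omega)
      · have h9 := hinj _ (by omega) _ (by omega) h7
        omega
    have hcyc : ∀ b₂ : Sym2 (Fin n) → Bool, ¬ LongCycle k (fun e => b₁ e || b₂ e) →
        ∀ e ∈ F, b₂ e = false := by
      intro b₂ hnot e he
      by_contra hcon
      have hcon' : b₂ e = true := by simpa using hcon
      apply hnot
      rw [hF] at he
      obtain ⟨⟨i, j⟩, hij, rfl⟩ := Finset.mem_image.mp he
      have h5 := Finset.mem_product.mp hij
      simp only [Finset.mem_range] at h5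
      refine ⟨2 * k + j - i, fun t => v (i + t), by omega, ?_, ?_, ?_⟩
      · intro s hs t ht hst
        have := hinj _ (by omega) _ (by omega) hst
        omega
      · intro t ht
        have := hch (i + t) (by omega)
        simp only [Bool.or_eq_true]
        left
        rw [← add_assoc]
        exact this
      · simp only [Bool.or_eq_true]
        right
        have h6 : i + (2 * k + j - i) = 2 * k + j := by omega
        rw [h6, add_zero]
        exact hcon'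
    have h5 : ∑ b₂ : Sym2 (Fin n) → Bool, W p₁ b₁ * W p₂ b₂ *
        (if LongCycle k (fun e => b₁ e || b₂ e) then (0:ℝ) else 1) ≤
        ∑ b₂ : Sym2 (Fin n) → Bool, W p₁ b₁ * (if ∀ e ∈ F, b₂ e = false then W p₂ b₂ else 0) := by
      refine Finset.sum_le_sum fun b₂ _ => ?_
      have h6 := mul_nonneg (W_nonneg h10 h11 b₁) (W_nonneg h20 h21 b₂)
      by_cases hc : LongCycle k (fun e => b₁ e || b₂ e)
      · rw [if_pos hc, mul_zero]
        split_ifs
        · exact h6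
        · simp
      · rw [if_neg hc, if_pos (hcyc b₂ hc), mul_one]
    refine le_trans h5 (le_of_eq ?_)
    rw [← Finset.mul_sum]
    congr 1
    have h6 := cyl_prob p₂ F (fun _ => false)
    rw [h6]
    rw [Finset.prod_const, hFcard]
    simp [bern]

lemma num1 {ε : ℝ} (hε0 : 0 < ε) (hε1 : ε ≤ 1 / 10) :
    0 < 1 / 20 - 13 / 40 * ε - 21 / 200 * ε ^ 2 := by
  have h : ε ^ 2 ≤ 1 / 100 := by nlinarith
  linarith

lemma num2 {ε n : ℝ} (hε0 : 0 < ε) (hε1 : ε ≤ 1 / 10) (hn : 0 < n) :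
    ε ^ 2 * n ≤ n / 100 := by
  have h : ε ^ 2 ≤ 1 / 100 := by nlinarith
  have := mul_le_mul_of_nonneg_right h hn.le
  linarith

lemma num3 {ε n p₁ N : ℝ} (hε0 : 0 < ε) (hε1 : ε ≤ 1 / 10) (hn : 0 < n) (hp : p₁ = (1 + ε) / n)
    (h1 : p₁ ≤ 1 / 2) (hN : ε * n ^ 2 / 2 - 1 ≤ N) :
    ε * n / 2 + ε ^ 2 * n / 2 - 2 ≤ p₁ * N := by
  have h10 : 0 ≤ p₁ := by rw [hp]; positivity
  have h5 : p₁ * (ε * n ^ 2 / 2 - 1) ≤ p₁ * N := mul_le_mul_of_nonneg_left hN h10
  have h6 : p₁ * (ε * n ^ 2 / 2 - 1) = ε * n / 2 + ε ^ 2 * n / 2 - p₁ := by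
    rw [hp]; field_simp
  linarith

lemma numH1 {ε n s : ℝ} (hε0 : 0 < ε) (hε1 : ε ≤ 1 / 10) (hn : 0 < n) (hs : 3 * s < n)
    (hs₀ : ε * n / 2 + 3 * ε ^ 2 * n / 10 ≤ s) :
    ε * n ^ 2 / 2 < s * (n - s - ε ^ 2 * n / 20) := by
  obtain ⟨s₀, hs₀'⟩ : ∃ s₀ : ℝ, s₀ = ε * n / 2 + 3 * ε ^ 2 * n / 10 := ⟨_, rfl⟩
  rw [← hs₀'] at hs₀
  have h8 : s₀ * (n - s₀ - ε ^ 2 * n / 20) ≤ s * (n - s - ε ^ 2 * n / 20) := by
    have h9 : s * (n - s - ε ^ 2 * n / 20) - s₀ * (n - s₀ - ε ^ 2 * n / 20)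
      = (s - s₀) * (n - ε ^ 2 * n / 20 - s - s₀) := by ring
    have h10 : 0 ≤ (s - s₀) * (n - ε ^ 2 * n / 20 - s - s₀) := by
      apply mul_nonneg (by linarith)
      have := num2 hε0 hε1 hn
      linarith
    linarith
  have h9 : ε * n ^ 2 / 2 < s₀ * (n - s₀ - ε ^ 2 * n / 20) := by
    have h10 : s₀ * (n - s₀ - ε ^ 2 * n / 20) - ε * n ^ 2 / 2 =
      ε ^ 2 * n ^ 2 * (1 / 20 - 13 / 40 * ε - 21 / 200 * ε ^ 2) := by
      rw [hs₀']; ring
    have h11 : 0 < ε ^ 2 * n ^ 2 * (1 / 20 - 13 / 40 * ε - 21 / 200 * ε ^ 2) :=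
      mul_pos (by positivity) (num1 hε0 hε1)
    linarith
  linarith

lemma numH2 {ε n s u : ℝ} (hε0 : 0 < ε) (hε1 : ε ≤ 1 / 10) (hn : 12 ≤ n) (hs : n ≤ 3 * s)
    (hs3 : 3 * s < n + 3) (hu : n ≤ s + u + ε ^ 2 * n / 20) :
    ε * n ^ 2 / 2 < s * u := by
  have h5 := num2 hε0 hε1 (by linarith : 0 < n)
  have h6 : n / 2 ≤ u := by linarith
  have h7 : n / 3 ≤ s := by linarith
  have h8 : n / 3 * (n / 2) ≤ s * u := by
    apply mul_le_mul h7 h6 (by linarith) (by linarith)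
  have h9 : ε * n ^ 2 / 2 ≤ n ^ 2 / 20 := by
    have := mul_le_mul_of_nonneg_right hε1 (sq_nonneg n)
    linarith
  have h10 : 0 < n ^ 2 := by positivity
  nlinarith

/-- Quantitative form: the probability that `G(n, (1+2ε)/n)` has no cycle on more than
`ε² n / 120` vertices. -/
lemma longCycle_prob (n : ℕ) (ε : ℝ) (hε0 : 0 < ε) (hε1 : ε ≤ 1 / 10) (hn : 12 ≤ n)
    (hεn : 120 ≤ ε ^ 2 * n) (k : ℕ) (hk : k = ⌊ε ^ 2 * n / 60⌋₊) :
    ∑ b : Sym2 (Fin n) → Bool, (if LongCycle k b then 0 else W ((1 + 2 * ε) / n) b) ≤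
      220 / (ε ^ 3 * n) + Real.exp (-(ε ^ 5 * n / 14400)) := by
  have hn0 : (0:ℝ) < n := by
    have : 0 < n := by omega
    exact_mod_cast this
  have hn12 : (12:ℝ) ≤ n := by exact_mod_cast hn
  have hεsq : ε ^ 2 ≤ ε / 10 := by nlinarith
  have hnbig : 1200 ≤ ε * n := by nlinarith
  have hnbig2 : (12000:ℝ) ≤ n := by nlinarith
  -- size of k
  have hkle : (k:ℝ) ≤ ε ^ 2 * n / 60 := by
    rw [hk]; exact Nat.floor_le (by positivity)
  have hkge : ε ^ 2 * n / 120 ≤ k := by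
    have : ε ^ 2 * n / 60 < (k:ℝ) + 1 := by
      rw [hk]; exact Nat.lt_floor_add_one _
    linarith
  have hkpos : 0 < k := by
    have : (0:ℝ) < k := by linarith
    exact_mod_cast this
  -- p₁ and p₂
  set p₁ : ℝ := (1 + ε) / n with hp₁
  have h10 : 0 < p₁ := by positivity
  have h11 : p₁ ≤ 1 / 2 := by
    rw [hp₁, div_le_iff₀ hn0]
    linarith
  set p₂ : ℝ := (ε / n) / (1 - p₁) with hp₂
  have h1p : 0 < 1 - p₁ := by linarith
  have h20 : 0 ≤ p₂ := by positivity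
  have hεn' : ε / n ≤ 1 / 2 := by
    rw [div_le_iff₀ hn0]; linarith
  have h21 : p₂ ≤ 1 := by
    rw [hp₂, div_le_one h1p]
    linarith
  have h2ge : ε / n ≤ p₂ := by
    rw [hp₂, le_div_iff₀ h1p]
    have : 0 < ε / n := by positivity
    nlinarith
  have hp : (1 + 2 * ε) / n = p₁ + p₂ - p₁ * p₂ := by
    have : p₁ + p₂ - p₁ * p₂ = p₁ + p₂ * (1 - p₁) := by ring
    rw [this, hp₂, div_mul_cancel₀ _ (ne_of_gt h1p), hp₁]
    field_simp
    ring
  rw [hp]
  refine le_trans (sprinkle k p₁ p₂ h10.le (by linarith) h20 h21 hkpos) ?_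
  apply add_le_add
  · -- long paths
    set N : ℕ := ⌊ε * n ^ 2 / 2⌋₊ with hN
    have hNle : (N:ℝ) ≤ ε * n ^ 2 / 2 := by
      rw [hN]; exact Nat.floor_le (by positivity)
    have hNge : ε * n ^ 2 / 2 - 1 ≤ N := by
      have : ε * n ^ 2 / 2 < (N:ℝ) + 1 := by
        rw [hN]; exact Nat.lt_floor_add_one _
      linarith
    set x : ℝ := ε ^ 2 * n / 20 with hx
    have hx0 : 0 < x := by positivity
    have hℓ : ((3 * k : ℕ) : ℝ) ≤ ε ^ 2 * n / 20 := by
      push_cast; linarith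
    have h3 := noLong_prob (n := n) N (3 * k) p₁ x h10.le (by linarith) hx0 (by omega) ?_ ?_
    · refine le_trans h3 ?_
      rw [div_le_div_iff₀ (by positivity) (by positivity)]
      have h4 : p₁ * N ≤ (1 + ε) / n * (ε * n ^ 2 / 2) :=
        mul_le_mul_of_nonneg_left hNle h10.le
      have h5 : (1 + ε) / n * (ε * n ^ 2 / 2) = (1 + ε) * ε * n / 2 := by
        field_simp
      rw [h5] at h4
      have h6 : 0 ≤ ε ^ 3 * n := by positivity
      calc p₁ * N * (ε ^ 3 * n) ≤ ((1 + ε) * ε * n / 2) * (ε ^ 3 * n) :=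
            mul_le_mul_of_nonneg_right h4 h6
        _ = (1 + ε) / 2 * (ε ^ 4 * n ^ 2) := by ring
        _ ≤ 220 / 400 * (ε ^ 4 * n ^ 2) := by
            apply mul_le_mul_of_nonneg_right _ (by positivity)
            linarith
        _ = 220 * x ^ 2 := by rw [hx]; ring
    · -- H1
      intro s u hs hu hsge
      have hs' : 3 * (s:ℝ) < n := by exact_mod_cast hs
      have hu' : (n:ℝ) ≤ s + u + (3 * k : ℕ) := by exact_mod_cast hu
      have hsu : (s:ℝ) * (n - s - ε ^ 2 * n / 20) ≤ s * u := by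
        apply mul_le_mul_of_nonneg_left _ (by positivity)
        linarith
      have hpN := num3 hε0 hε1 hn0 hp₁ h11 hNge
      have hs₀s : ε * n / 2 + 3 * ε ^ 2 * n / 10 ≤ s := by
        rw [hx] at hsge
        linarith
      have h9 := numH1 hε0 hε1 hn0 hs' hs₀s
      have : (N:ℝ) < (s:ℝ) * u := by linarith
      exact_mod_cast this
    · -- H2
      intro s u hs hs3 hu
      have hs' : (n:ℝ) ≤ 3 * s := by exact_mod_cast hs
      have hs3' : 3 * (s:ℝ) < n + 3 := by exact_mod_cast hs3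
      have hu' : (n:ℝ) ≤ s + u + (3 * k : ℕ) := by exact_mod_cast hu
      have h9 := numH2 hε0 hε1 hn12 hs' hs3' (by linarith : (n:ℝ) ≤ s + u + ε ^ 2 * n / 20)
      have : (N:ℝ) < (s:ℝ) * u := by linarith
      exact_mod_cast this
  · -- sprinkling
    have h3 : (1 - p₂) ≤ Real.exp (-p₂) := by
      have := Real.add_one_le_exp (-p₂)
      linarith
    have h4 : (1 - p₂) ^ (k * k) ≤ Real.exp (-p₂) ^ (k * k) :=
      pow_le_pow_left₀ (by linarith) h3 _
    refine le_trans h4 ?_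
    rw [← Real.exp_nat_mul]
    apply Real.exp_le_exp.mpr
    have h5 : (ε ^ 2 * n / 120) * (ε ^ 2 * n / 120) ≤ (k:ℝ) * k :=
      mul_le_mul hkge hkge (by positivity) (by positivity)
    have h6 : (ε / n) * ((ε ^ 2 * n / 120) * (ε ^ 2 * n / 120)) ≤ p₂ * (k * k) :=
      mul_le_mul h2ge h5 (by positivity) h20
    have h7 : (ε / n) * ((ε ^ 2 * n / 120) * (ε ^ 2 * n / 120)) = ε ^ 5 * n / 14400 := by
      field_simp
      ring
    rw [h7] at h6
    push_cast
    linarith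

end Pool.Agent.H64
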