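import Mathlib

open Finset

namespace Pool.Agent.H64.LSE

variable {ι : Type*}

/-- `Z k t = ∑ p i * v i ^ k * exp (t * v i)`. -/
private noncomputable def Z (s : Finset ι) (p v : ι → ℝ) (k : ℕ) (t : ℝ) : ℝ :=
  ∑ i ∈ s, p i * v i ^ k * Real.exp (t * v i)

private lemma hasDerivAt_Z (s : Finset ι) (p v : ι → ℝ) (k : ℕ) (t : ℝ) :
    HasDerivAt (Z s p v k) (Z s p v (k + 1) t) t := by
  unfold Z
  have : ∀ i ∈ s, HasDerivAt (fun t => p i * v i ^ k * Real.exp (t * v i))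
      (p i * v i ^ (k + 1) * Real.exp (t * v i)) t := by
    intro i _
    have h1 : HasDerivAt (fun t : ℝ => t * v i) (v i) t := by
      simpa using (hasDerivAt_id t).mul_const (v i)
    exact ((h1.exp).const_mul (p i * v i ^ k)).congr_deriv (by ring)
  exact HasDerivAt.fun_sum this

private lemma Z_pos {s : Finset ι} {p v : ι → ℝ} (hp : ∀ i ∈ s, 0 ≤ p i)
    (hsum : ∑ i ∈ s, p i = 1) (t : ℝ) : 0 < Z s p v 0 t := by
  unfold Z
  simp only [pow_zero, mul_one]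
  have h0 : ∃ i ∈ s, 0 < p i := by
    by_contra h
    push Not at h
    have : ∑ i ∈ s, p i ≤ 0 := Finset.sum_nonpos h
    linarith
  obtain ⟨i, hi, hpi⟩ := h0
  exact Finset.sum_pos' (fun j hj => mul_nonneg (hp j hj) (Real.exp_pos _).le)
    ⟨i, hi, mul_pos hpi (Real.exp_pos _)⟩

private lemma abs_Z_le {s : Finset ι} {p v : ι → ℝ} {V : ℝ} (hp : ∀ i ∈ s, 0 ≤ p i)
    (hv : ∀ i ∈ s, |v i| ≤ V) (k : ℕ) (t : ℝ) : |Z s p v k t| ≤ V ^ k * Z s p v 0 t := by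
  unfold Z
  rw [Finset.mul_sum]
  refine (Finset.abs_sum_le_sum_abs _ _).trans (Finset.sum_le_sum fun i hi => ?_)
  rw [abs_mul, abs_mul, abs_of_nonneg (hp i hi), Real.abs_exp, abs_pow]
  have : |v i| ^ k ≤ V ^ k := pow_le_pow_left₀ (abs_nonneg _) (hv i hi) k
  have h2 := mul_nonneg (hp i hi) (Real.exp_pos (t * v i)).le
  nlinarith

/-- third order Taylor expansion of the cumulant generating function of a finite
probability measure. -/
theorem log_sum_exp_taylor (s : Finset ι) (p v : ι → ℝ) (V : ℝ)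
    (hp : ∀ i ∈ s, 0 ≤ p i) (hsum : ∑ i ∈ s, p i = 1) (hv : ∀ i ∈ s, |v i| ≤ V) :
    |Real.log (∑ i ∈ s, p i * Real.exp (v i)) - ∑ i ∈ s, p i * v i
      - (1 / 2) * (∑ i ∈ s, p i * v i ^ 2 - (∑ i ∈ s, p i * v i) ^ 2)| ≤ V ^ 3 := by
  classical
  have hV : 0 ≤ V := by
    have h0 : ∃ i ∈ s, True := by
      by_contra h
      push Not at h
      have : s = ∅ := Finset.eq_empty_of_forall_notMem (fun i hi => h i hi)
      simp [this] at hsum
    obtain ⟨i, hi, -⟩ := h0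
    exact (abs_nonneg _).trans (hv i hi)
  set z0 := Z s p v 0 with hz0
  set z1 := Z s p v 1 with hz1
  set z2 := Z s p v 2 with hz2
  set z3 := Z s p v 3 with hz3
  have hpos : ∀ t, 0 < z0 t := Z_pos hp hsum
  have d0 : ∀ t, HasDerivAt z0 (z1 t) t := fun t => hasDerivAt_Z s p v 0 t
  have d1 : ∀ t, HasDerivAt z1 (z2 t) t := fun t => hasDerivAt_Z s p v 1 t
  have d2 : ∀ t, HasDerivAt z2 (z3 t) t := fun t => hasDerivAt_Z s p v 2 t
  have b1 : ∀ t, |z1 t| ≤ V * z0 t := fun t => by simpa using abs_Z_le hp hv 1 t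
  have b2 : ∀ t, |z2 t| ≤ V ^ 2 * z0 t := fun t => abs_Z_le hp hv 2 t
  have b3 : ∀ t, |z3 t| ≤ V ^ 3 * z0 t := fun t => abs_Z_le hp hv 3 t
  have e0 : z0 0 = 1 := by simp [hz0, Z, hsum]
  have e1 : z1 0 = ∑ i ∈ s, p i * v i := by simp [hz1, Z]
  have e2 : z2 0 = ∑ i ∈ s, p i * v i ^ 2 := by simp [hz2, Z]
  -- the ratios
  set r1 : ℝ → ℝ := fun t => z1 t / z0 t with hr1
  set r2 : ℝ → ℝ := fun t => z2 t / z0 t with hr2
  set r3 : ℝ → ℝ := fun t => z3 t / z0 t with hr3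
  have a1 : ∀ t, |r1 t| ≤ V := fun t => by
    rw [hr1, abs_div, abs_of_pos (hpos t), div_le_iff₀ (hpos t)]; exact b1 t
  have a2 : ∀ t, |r2 t| ≤ V ^ 2 := fun t => by
    rw [hr2, abs_div, abs_of_pos (hpos t), div_le_iff₀ (hpos t)]; exact b2 t
  have a3 : ∀ t, |r3 t| ≤ V ^ 3 := fun t => by
    rw [hr3, abs_div, abs_of_pos (hpos t), div_le_iff₀ (hpos t)]; exact b3 t
  have D1 : ∀ t, HasDerivAt r1 (r2 t - r1 t ^ 2) t := fun t => by
    have h := (d1 t).div (d0 t) (hpos t).ne'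
    refine h.congr_deriv ?_
    have := (hpos t).ne'
    change _ = z2 t / z0 t - (z1 t / z0 t) ^ 2
    field_simp
  have D2 : ∀ t, HasDerivAt r2 (r3 t - r2 t * r1 t) t := fun t => by
    have h := (d2 t).div (d0 t) (hpos t).ne'
    refine h.congr_deriv ?_
    have := (hpos t).ne'
    change _ = z3 t / z0 t - (z2 t / z0 t) * (z1 t / z0 t)
    field_simp
  -- second derivative of L
  set L2 : ℝ → ℝ := fun t => r2 t - r1 t ^ 2 with hL2
  set L3 : ℝ → ℝ := fun t => r3 t - r2 t * r1 t - 2 * r1 t * (r2 t - r1 t ^ 2) with hL3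
  have DL2 : ∀ t, HasDerivAt L2 (L3 t) t := fun t => by
    have h := (D2 t).sub ((D1 t).pow 2)
    refine h.congr_deriv ?_
    change _ = r3 t - r2 t * r1 t - 2 * r1 t * (r2 t - r1 t ^ 2)
    push_cast
    ring
  have bL3 : ∀ t, |L3 t| ≤ 6 * V ^ 3 := fun t => by
    have h1 := a1 t
    have h2 := a2 t
    have h3 := a3 t
    have h12 : |r2 t * r1 t| ≤ V ^ 3 := by
      rw [abs_mul]
      calc |r2 t| * |r1 t| ≤ V ^ 2 * V := mul_le_mul h2 h1 (abs_nonneg _) (by positivity)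
        _ = V ^ 3 := by ring
    have h111 : |r1 t ^ 3| ≤ V ^ 3 := by
      rw [abs_pow]; exact pow_le_pow_left₀ (abs_nonneg _) h1 3
    have : L3 t = r3 t - 3 * (r2 t * r1 t) + 2 * r1 t ^ 3 := by simp only [hL3]; ring
    rw [this]
    rw [abs_le] at *
    constructor <;> nlinarith [h12.1, h12.2, h111.1, h111.2, h3.1, h3.2]
  -- step 1
  have S1 : ∀ t ∈ Set.Icc (0:ℝ) 1, ‖L2 t - L2 0‖ ≤ 6 * V ^ 3 * t := by
    refine image_norm_le_of_norm_deriv_right_le_deriv_boundary (f' := L3)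
      (B := fun t => 6 * V ^ 3 * t) (B' := fun _ => 6 * V ^ 3) ?_ ?_ ?_ ?_ ?_
    · exact fun t _ => ((DL2 t).sub_const _).continuousAt.continuousWithinAt
    · exact fun t _ => ((DL2 t).sub_const _).hasDerivWithinAt
    · simp
    · intro t; simpa using (hasDerivAt_id t).const_mul (6 * V ^ 3)
    · intro t _; simpa using bL3 t
  have S2 : ∀ t ∈ Set.Icc (0:ℝ) 1, ‖r1 t - r1 0 - L2 0 * t‖ ≤ 3 * V ^ 3 * t ^ 2 := by
    refine image_norm_le_of_norm_deriv_right_le_deriv_boundary (f' := fun t => L2 t - L2 0)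
      (B := fun t => 3 * V ^ 3 * t ^ 2) (B' := fun t => 6 * V ^ 3 * t) ?_ ?_ ?_ ?_ ?_
    · have h : ∀ t, HasDerivAt (fun t => r1 t - r1 0 - L2 0 * t) (L2 t - L2 0) t := fun t => by
        have := ((D1 t).sub_const (r1 0)).sub ((hasDerivAt_id t).const_mul (L2 0))
        exact this.congr_deriv (by simp [hL2])
      exact fun t _ => (h t).continuousAt.continuousWithinAt
    · have h : ∀ t, HasDerivAt (fun t => r1 t - r1 0 - L2 0 * t) (L2 t - L2 0) t := fun t => by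
        have := ((D1 t).sub_const (r1 0)).sub ((hasDerivAt_id t).const_mul (L2 0))
        exact this.congr_deriv (by simp [hL2])
      exact fun t _ => (h t).hasDerivWithinAt
    · simp
    · intro t
      exact ((hasDerivAt_pow 2 t).const_mul (3 * V ^ 3)).congr_deriv (by push_cast; ring)
    · intro t ht; exact S1 t ⟨ht.1, ht.2.le⟩
  have S3 : ∀ t ∈ Set.Icc (0:ℝ) 1,
      ‖Real.log (z0 t) - r1 0 * t - L2 0 * t ^ 2 / 2‖ ≤ V ^ 3 * t ^ 3 := by
    have h : ∀ t, HasDerivAt (fun t => Real.log (z0 t) - r1 0 * t - L2 0 * t ^ 2 / 2)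
        (r1 t - r1 0 - L2 0 * t) t := fun t => by
      have := (((d0 t).log (hpos t).ne').sub ((hasDerivAt_id t).const_mul (r1 0))).sub
        (((hasDerivAt_pow 2 t).const_mul (L2 0)).div_const 2)
      refine this.congr_deriv ?_
      change _ = z1 t / z0 t - r1 0 - L2 0 * t
      push_cast; ring
    refine image_norm_le_of_norm_deriv_right_le_deriv_boundary
      (f' := fun t => r1 t - r1 0 - L2 0 * t)
      (B := fun t => V ^ 3 * t ^ 3) (B' := fun t => 3 * V ^ 3 * t ^ 2) ?_ ?_ ?_ ?_ ?_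
    · exact fun t _ => (h t).continuousAt.continuousWithinAt
    · exact fun t _ => (h t).hasDerivWithinAt
    · simp [e0]
    · intro t
      exact ((hasDerivAt_pow 3 t).const_mul (V ^ 3)).congr_deriv (by push_cast; ring)
    · intro t ht; exact S2 t ⟨ht.1, ht.2.le⟩
  have h1 := S3 1 (by simp)
  have hz01 : z0 1 = ∑ i ∈ s, p i * Real.exp (v i) := by simp [hz0, Z]
  rw [Real.norm_eq_abs, hz01] at h1
  have hr10 : r1 0 = ∑ i ∈ s, p i * v i := by simp only [hr1]; rw [e0, e1, div_one]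
  have hL20 : L2 0 = ∑ i ∈ s, p i * v i ^ 2 - (∑ i ∈ s, p i * v i) ^ 2 := by
    simp only [hL2, hr1, hr2]; rw [e0, e1, e2, div_one, div_one]
  rw [hr10, hL20] at h1
  convert h1 using 2 <;> ring

/-- smoothed maximum `(1/b) log ∑ w i exp (b M i)`. -/
noncomputable def lse (s : Finset ι) (w : ι → ℝ) (b : ℝ) (M : ι → ℝ) : ℝ :=
  (1 / b) * Real.log (∑ i ∈ s, w i * Real.exp (b * M i))

/-- Gibbs weights. -/
noncomputable def gibbs (s : Finset ι) (w : ι → ℝ) (b : ℝ) (M : ι → ℝ) (i : ι) : ℝ :=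
  w i * Real.exp (b * M i) / ∑ j ∈ s, w j * Real.exp (b * M j)

lemma part_pos {s : Finset ι} {w : ι → ℝ} (hw : ∀ i ∈ s, 0 ≤ w i) (hw' : 0 < ∑ i ∈ s, w i)
    (M : ι → ℝ) : 0 < ∑ i ∈ s, w i * Real.exp (M i) := by
  have h0 : ∃ i ∈ s, 0 < w i := by
    by_contra h
    push Not at h
    have : ∑ i ∈ s, w i ≤ 0 := Finset.sum_nonpos h
    linarith
  obtain ⟨i, hi, hpi⟩ := h0
  exact Finset.sum_pos' (fun j hj => mul_nonneg (hw j hj) (Real.exp_pos _).le)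
    ⟨i, hi, mul_pos hpi (Real.exp_pos _)⟩

lemma gibbs_nonneg {s : Finset ι} {w : ι → ℝ} (hw : ∀ i ∈ s, 0 ≤ w i)
    (hw' : 0 < ∑ i ∈ s, w i) (b : ℝ) (M : ι → ℝ) {i : ι} (hi : i ∈ s) :
    0 ≤ gibbs s w b M i :=
  div_nonneg (mul_nonneg (hw i hi) (Real.exp_pos _).le) (part_pos hw hw' (fun j => b * M j)).le

lemma sum_gibbs {s : Finset ι} {w : ι → ℝ} (hw : ∀ i ∈ s, 0 ≤ w i)
    (hw' : 0 < ∑ i ∈ s, w i) (b : ℝ) (M : ι → ℝ) : ∑ i ∈ s, gibbs s w b M i = 1 := by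
  unfold gibbs
  rw [← Finset.sum_div]
  exact div_self (part_pos hw hw' (fun j => b * M j)).ne'

/-- variance as a double sum -/
lemma var_eq (s : Finset ι) (p X : ι → ℝ) (hp : ∑ i ∈ s, p i = 1) :
    ∑ i ∈ s, p i * X i ^ 2 - (∑ i ∈ s, p i * X i) ^ 2
      = (1 / 2) * ∑ i ∈ s, ∑ j ∈ s, p i * p j * (X i - X j) ^ 2 := by
  have h1 : ∑ i ∈ s, ∑ j ∈ s, p i * p j * (X i - X j) ^ 2
      = ∑ i ∈ s, ∑ j ∈ s, (p j * (p i * X i ^ 2) - 2 * ((p i * X i) * (p j * X j))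
          + p i * (p j * X j ^ 2)) := by
    refine Finset.sum_congr rfl fun i _ => Finset.sum_congr rfl fun j _ => ?_
    ring
  rw [h1]
  simp only [Finset.sum_add_distrib, Finset.sum_sub_distrib]
  have e1 : ∑ i ∈ s, ∑ j ∈ s, p j * (p i * X i ^ 2) = ∑ i ∈ s, p i * X i ^ 2 := by
    refine Finset.sum_congr rfl fun i _ => ?_
    rw [← Finset.sum_mul, hp, one_mul]
  have e2 : ∑ i ∈ s, ∑ j ∈ s, 2 * ((p i * X i) * (p j * X j)) = 2 * (∑ i ∈ s, p i * X i) ^ 2 := by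
    rw [sq, Finset.sum_mul_sum, Finset.mul_sum]
    refine Finset.sum_congr rfl fun i _ => ?_
    rw [Finset.mul_sum]
  have e3 : ∑ i ∈ s, ∑ j ∈ s, p i * (p j * X j ^ 2) = ∑ i ∈ s, p i * X i ^ 2 := by
    simp only [← Finset.mul_sum]
    rw [← Finset.sum_mul, hp, one_mul]
  rw [e1, e2, e3]
  ring

/-- third order Taylor expansion of the smoothed maximum. -/
theorem lse_taylor {s : Finset ι} {w : ι → ℝ} (hw : ∀ i ∈ s, 0 ≤ w i)
    (hw' : 0 < ∑ i ∈ s, w i) {b : ℝ} (hb : 0 < b) (M X : ι → ℝ) (V : ℝ)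
    (hX : ∀ i ∈ s, |X i| ≤ V) :
    |lse s w b (fun i => M i + X i) - lse s w b M - ∑ i ∈ s, gibbs s w b M i * X i
      - (b / 4) * ∑ i ∈ s, ∑ j ∈ s, gibbs s w b M i * gibbs s w b M j * (X i - X j) ^ 2|
      ≤ b ^ 2 * V ^ 3 := by
  have hZ := part_pos hw hw' (fun j => b * M j)
  have hp1 := sum_gibbs hw hw' b M
  have key := log_sum_exp_taylor s (gibbs s w b M) (fun i => b * X i) (b * V)
    (fun i hi => gibbs_nonneg hw hw' b M hi) hp1 (fun i hi => by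
      rw [abs_mul, abs_of_pos hb]; exact mul_le_mul_of_nonneg_left (hX i hi) hb.le)
  rw [var_eq s _ _ hp1] at key
  have e1 : ∑ i ∈ s, gibbs s w b M i * Real.exp (b * X i)
      = (∑ i ∈ s, w i * Real.exp (b * (M i + X i))) / ∑ j ∈ s, w j * Real.exp (b * M j) := by
    rw [Finset.sum_div]
    refine Finset.sum_congr rfl fun i _ => ?_
    unfold gibbs
    rw [mul_add, Real.exp_add]
    ring
  have e2 : ∑ i ∈ s, gibbs s w b M i * (b * X i) = b * ∑ i ∈ s, gibbs s w b M i * X i := by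
    rw [Finset.mul_sum]
    exact Finset.sum_congr rfl fun i _ => by ring
  have e3 : ∑ i ∈ s, ∑ j ∈ s, gibbs s w b M i * gibbs s w b M j * (b * X i - b * X j) ^ 2
      = b ^ 2 * ∑ i ∈ s, ∑ j ∈ s, gibbs s w b M i * gibbs s w b M j * (X i - X j) ^ 2 := by
    rw [Finset.mul_sum]
    refine Finset.sum_congr rfl fun i _ => ?_
    rw [Finset.mul_sum]
    exact Finset.sum_congr rfl fun j _ => by ring
  have hZ' := part_pos hw hw' (fun j => b * (M j + X j))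
  rw [e1, e2, e3, Real.log_div hZ'.ne' hZ.ne'] at key
  unfold lse
  set A := ∑ i ∈ s, gibbs s w b M i * X i
  set B := ∑ i ∈ s, ∑ j ∈ s, gibbs s w b M i * gibbs s w b M j * (X i - X j) ^ 2
  set C := Real.log (∑ i ∈ s, w i * Real.exp (b * (M i + X i)))
  set D := Real.log (∑ i ∈ s, w i * Real.exp (b * M i))
  have e4 : 1 / b * C - 1 / b * D - A - b / 4 * B
      = (1 / b) * (C - D - b * A - 1 / 2 * (1 / 2 * (b ^ 2 * B))) := by
    field_simp
    ring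
  rw [e4, abs_mul, abs_of_pos (by positivity : (0:ℝ) < 1 / b)]
  calc 1 / b * |C - D - b * A - 1 / 2 * (1 / 2 * (b ^ 2 * B))| ≤ 1 / b * (b * V) ^ 3 :=
        mul_le_mul_of_nonneg_left key (by positivity)
    _ = b ^ 2 * V ^ 3 := by field_simp

private lemma expand_aux {Θ : Type*} [Fintype Θ] (s : Finset ι) (p : ι → ℝ) (L b : ℝ)
    (r : Θ → ℝ) (hr : ∑ θ, r θ = 1) (U : Θ → ι → ℝ) (hU : ∀ i ∈ s, ∑ θ, r θ * U θ i = 0) :
    ∑ θ, r θ * (L + ∑ i ∈ s, p i * U θ i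
        + (b / 4) * ∑ i ∈ s, ∑ j ∈ s, p i * p j * (U θ i - U θ j) ^ 2)
      = L + (b / 4) * ∑ i ∈ s, ∑ j ∈ s, p i * p j * ∑ θ, r θ * (U θ i - U θ j) ^ 2 := by
  simp only [mul_add, Finset.sum_add_distrib]
  rw [← Finset.sum_mul, hr, one_mul]
  have h1 : ∑ θ, r θ * ∑ i ∈ s, p i * U θ i = 0 := by
    simp only [Finset.mul_sum]
    rw [Finset.sum_comm]
    refine Finset.sum_eq_zero fun i hi => ?_
    have : ∑ θ, r θ * (p i * U θ i) = p i * ∑ θ, r θ * U θ i := by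
      rw [Finset.mul_sum]; exact Finset.sum_congr rfl fun θ _ => by ring
    rw [this, hU i hi, mul_zero]
  rw [h1, add_zero]
  congr 1
  simp only [Finset.mul_sum]
  rw [Finset.sum_comm]
  refine Finset.sum_congr rfl fun i _ => ?_
  rw [Finset.sum_comm]
  refine Finset.sum_congr rfl fun j _ => ?_
  exact Finset.sum_congr rfl fun θ _ => by ring

/-- One Lindeberg step (also the infinitesimal Sudakov–Fernique inequality). -/
theorem lse_one_step {Ω Ω' : Type*} [Fintype Ω] [Fintype Ω'] {s : Finset ι} {w : ι → ℝ}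
    (hw : ∀ i ∈ s, 0 ≤ w i) (hw' : 0 < ∑ i ∈ s, w i) {b : ℝ} (hb : 0 < b)
    (q : Ω → ℝ) (hq : ∀ ω, 0 ≤ q ω) (hq1 : ∑ ω, q ω = 1)
    (q' : Ω' → ℝ) (hq' : ∀ ω, 0 ≤ q' ω) (hq1' : ∑ ω, q' ω = 1)
    (X : Ω → ι → ℝ) (Y : Ω' → ι → ℝ)
    (hX0 : ∀ i ∈ s, ∑ ω, q ω * X ω i = 0) (hY0 : ∀ i ∈ s, ∑ ω, q' ω * Y ω i = 0)
    (hXY : ∀ i ∈ s, ∀ j ∈ s,
      ∑ ω, q ω * (X ω i - X ω j) ^ 2 ≤ ∑ ω, q' ω * (Y ω i - Y ω j) ^ 2)
    (VX : Ω → ℝ) (hVX : ∀ ω, ∀ i ∈ s, |X ω i| ≤ VX ω)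
    (VY : Ω' → ℝ) (hVY : ∀ ω, ∀ i ∈ s, |Y ω i| ≤ VY ω) (M : ι → ℝ) :
    ∑ ω, q ω * lse s w b (fun i => M i + X ω i)
      ≤ ∑ ω, q' ω * lse s w b (fun i => M i + Y ω i)
        + b ^ 2 * (∑ ω, q ω * VX ω ^ 3 + ∑ ω, q' ω * VY ω ^ 3) := by
  set p := gibbs s w b M with hp
  have hp0 : ∀ i ∈ s, 0 ≤ p i := fun i hi => gibbs_nonneg hw hw' b M hi
  have hupX : ∑ ω, q ω * lse s w b (fun i => M i + X ω i)
      ≤ ∑ ω, q ω * (lse s w b M + ∑ i ∈ s, p i * X ω i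
        + (b / 4) * ∑ i ∈ s, ∑ j ∈ s, p i * p j * (X ω i - X ω j) ^ 2)
        + b ^ 2 * ∑ ω, q ω * VX ω ^ 3 := by
    rw [Finset.mul_sum, ← Finset.sum_add_distrib]
    refine Finset.sum_le_sum fun ω _ => ?_
    have h := (abs_le.1 (lse_taylor hw hw' hb M (X ω) (VX ω) (hVX ω))).2
    have := mul_le_mul_of_nonneg_left h (hq ω)
    nlinarith [this]
  have hloY : ∑ ω, q' ω * (lse s w b M + ∑ i ∈ s, p i * Y ω i
        + (b / 4) * ∑ i ∈ s, ∑ j ∈ s, p i * p j * (Y ω i - Y ω j) ^ 2)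
      ≤ ∑ ω, q' ω * lse s w b (fun i => M i + Y ω i) + b ^ 2 * ∑ ω, q' ω * VY ω ^ 3 := by
    rw [Finset.mul_sum, ← Finset.sum_add_distrib]
    refine Finset.sum_le_sum fun ω _ => ?_
    have h := (abs_le.1 (lse_taylor hw hw' hb M (Y ω) (VY ω) (hVY ω))).1
    have := mul_le_mul_of_nonneg_left h (hq' ω)
    nlinarith [this]
  rw [expand_aux s p (lse s w b M) b q hq1 X hX0] at hupX
  rw [expand_aux s p (lse s w b M) b q' hq1' Y hY0] at hloY
  have hmid : ∑ i ∈ s, ∑ j ∈ s, p i * p j * ∑ ω, q ω * (X ω i - X ω j) ^ 2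
      ≤ ∑ i ∈ s, ∑ j ∈ s, p i * p j * ∑ ω, q' ω * (Y ω i - Y ω j) ^ 2 :=
    Finset.sum_le_sum fun i hi => Finset.sum_le_sum fun j hj =>
      mul_le_mul_of_nonneg_left (hXY i hi j hj) (mul_nonneg (hp0 i hi) (hp0 j hj))
  have hmid' := mul_le_mul_of_nonneg_left hmid (by positivity : (0:ℝ) ≤ b / 4)
  linarith

private lemma sum_fin_succ {Ω : Type*} [Fintype Ω] {n : ℕ} (G : (Fin (n + 1) → Ω) → ℝ) :
    ∑ ω : Fin (n + 1) → Ω, G ω = ∑ a : Ω, ∑ ω : Fin n → Ω, G (Fin.cons a ω) := by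
  rw [← Fintype.sum_prod_type' (f := fun (a : Ω) (ω : Fin n → Ω) => G (Fin.cons a ω))]
  exact (Equiv.sum_comp (Fin.consEquiv (fun _ : Fin (n + 1) => Ω)) G).symm

private lemma sum_prod_weights {Ω : Type*} [Fintype Ω] {n : ℕ} (q : Fin n → Ω → ℝ)
    (hq1 : ∀ k, ∑ ω, q k ω = 1) : ∑ ω : Fin n → Ω, ∏ k, q k (ω k) = 1 := by
  classical
  rw [← Fintype.piFinset_univ, ← Finset.prod_univ_sum]
  simp [hq1]

/-- Lindeberg replacement / Sudakov–Fernique comparison for the smoothed maximum, for finite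
families of independent random vectors on finite probability spaces. -/
theorem lse_lindeberg {Ω Ω' : Type*} [Fintype Ω] [Fintype Ω'] {s : Finset ι} {w : ι → ℝ}
    (hw : ∀ i ∈ s, 0 ≤ w i) (hw' : 0 < ∑ i ∈ s, w i) {b : ℝ} (hb : 0 < b) {n : ℕ}
    (q : Fin n → Ω → ℝ) (hq : ∀ k ω, 0 ≤ q k ω) (hq1 : ∀ k, ∑ ω, q k ω = 1)
    (q' : Fin n → Ω' → ℝ) (hq' : ∀ k ω, 0 ≤ q' k ω) (hq1' : ∀ k, ∑ ω, q' k ω = 1)
    (X : Fin n → Ω → ι → ℝ) (Y : Fin n → Ω' → ι → ℝ)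
    (hX0 : ∀ k, ∀ i ∈ s, ∑ ω, q k ω * X k ω i = 0)
    (hY0 : ∀ k, ∀ i ∈ s, ∑ ω, q' k ω * Y k ω i = 0)
    (hXY : ∀ k, ∀ i ∈ s, ∀ j ∈ s,
      ∑ ω, q k ω * (X k ω i - X k ω j) ^ 2 ≤ ∑ ω, q' k ω * (Y k ω i - Y k ω j) ^ 2)
    (VX : Fin n → Ω → ℝ) (hVX : ∀ k ω, ∀ i ∈ s, |X k ω i| ≤ VX k ω)
    (VY : Fin n → Ω' → ℝ) (hVY : ∀ k ω, ∀ i ∈ s, |Y k ω i| ≤ VY k ω) (M : ι → ℝ) :
    ∑ ω : Fin n → Ω, (∏ k, q k (ω k)) * lse s w b (fun i => M i + ∑ k, X k (ω k) i)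
      ≤ ∑ ω : Fin n → Ω', (∏ k, q' k (ω k)) * lse s w b (fun i => M i + ∑ k, Y k (ω k) i)
        + b ^ 2 * ∑ k, (∑ ω, q k ω * VX k ω ^ 3 + ∑ ω, q' k ω * VY k ω ^ 3) := by
  induction n generalizing M with
  | zero => simp
  | succ n ih =>
    rw [sum_fin_succ, sum_fin_succ, Fin.sum_univ_succ]
    simp only [Fin.prod_univ_succ, Fin.sum_univ_succ, Fin.cons_zero, Fin.cons_succ]
    set errT := ∑ k : Fin n, (∑ ω, q k.succ ω * VX k.succ ω ^ 3
      + ∑ ω, q' k.succ ω * VY k.succ ω ^ 3) with herrT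
    -- tail comparison
    have hT : ∀ M : ι → ℝ, ∑ ω : Fin n → Ω, (∏ k, q k.succ (ω k)) *
          lse s w b (fun i => M i + ∑ k, X k.succ (ω k) i)
        ≤ ∑ ω : Fin n → Ω', (∏ k, q' k.succ (ω k)) *
          lse s w b (fun i => M i + ∑ k, Y k.succ (ω k) i) + b ^ 2 * errT := fun M =>
      ih (fun k => q k.succ) (fun k => hq k.succ) (fun k => hq1 k.succ)
        (fun k => q' k.succ) (fun k => hq' k.succ) (fun k => hq1' k.succ)
        (fun k => X k.succ) (fun k => Y k.succ) (fun k => hX0 k.succ) (fun k => hY0 k.succ)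
        (fun k => hXY k.succ) (fun k => VX k.succ) (fun k => hVX k.succ)
        (fun k => VY k.succ) (fun k => hVY k.succ) M
    calc ∑ a : Ω, ∑ ω : Fin n → Ω, (q 0 a * ∏ k, q k.succ (ω k)) *
          lse s w b (fun i => M i + (X 0 a i + ∑ k, X k.succ (ω k) i))
        = ∑ a : Ω, q 0 a * ∑ ω : Fin n → Ω, (∏ k, q k.succ (ω k)) *
          lse s w b (fun i => (M i + X 0 a i) + ∑ k, X k.succ (ω k) i) := by
          refine Finset.sum_congr rfl fun a _ => ?_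
          rw [Finset.mul_sum]
          refine Finset.sum_congr rfl fun ω _ => ?_
          rw [mul_assoc]
          simp only [add_assoc]
      _ ≤ ∑ a : Ω, q 0 a * (∑ ω : Fin n → Ω', (∏ k, q' k.succ (ω k)) *
          lse s w b (fun i => (M i + X 0 a i) + ∑ k, Y k.succ (ω k) i) + b ^ 2 * errT) :=
          Finset.sum_le_sum fun a _ =>
            mul_le_mul_of_nonneg_left (hT (fun i => M i + X 0 a i)) (hq 0 a)
      _ = ∑ ω : Fin n → Ω', (∏ k, q' k.succ (ω k)) * (∑ a : Ω, q 0 a *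
          lse s w b (fun i => (M i + ∑ k, Y k.succ (ω k) i) + X 0 a i)) + b ^ 2 * errT := by
          simp only [mul_add, Finset.sum_add_distrib]
          rw [← Finset.sum_mul, hq1 0, one_mul]
          congr 1
          simp only [Finset.mul_sum]
          rw [Finset.sum_comm]
          refine Finset.sum_congr rfl fun ω _ => Finset.sum_congr rfl fun a _ => ?_
          have : (fun i => M i + X 0 a i + ∑ k : Fin n, Y k.succ (ω k) i)
              = (fun i => M i + ∑ k : Fin n, Y k.succ (ω k) i + X 0 a i) := by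
            funext i; ring
          rw [this]; ring
      _ ≤ ∑ ω : Fin n → Ω', (∏ k, q' k.succ (ω k)) * (∑ a : Ω', q' 0 a *
          lse s w b (fun i => (M i + ∑ k, Y k.succ (ω k) i) + Y 0 a i)
          + b ^ 2 * (∑ ω, q 0 ω * VX 0 ω ^ 3 + ∑ ω, q' 0 ω * VY 0 ω ^ 3)) + b ^ 2 * errT := by
          gcongr with ω _
          · exact Finset.prod_nonneg fun k _ => hq' _ _
          · exact lse_one_step hw hw' hb (q 0) (hq 0) (hq1 0) (q' 0) (hq' 0) (hq1' 0) (X 0) (Y 0)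
              (hX0 0) (hY0 0) (hXY 0) (VX 0) (hVX 0) (VY 0) (hVY 0) _
      _ = _ := by
          simp only [mul_add, Finset.sum_add_distrib]
          rw [← Finset.sum_mul, ← Finset.sum_mul, sum_prod_weights (fun k => q' k.succ)
            (fun k => hq1' k.succ), one_mul, one_mul]
          have : ∑ ω : Fin n → Ω', (∏ k, q' k.succ (ω k)) * (∑ a : Ω', q' 0 a *
              lse s w b (fun i => (M i + ∑ k, Y k.succ (ω k) i) + Y 0 a i))
              = ∑ a : Ω', ∑ ω : Fin n → Ω', (q' 0 a * ∏ k, q' k.succ (ω k)) *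
              lse s w b (fun i => M i + (Y 0 a i + ∑ k, Y k.succ (ω k) i)) := by
            simp only [Finset.mul_sum]
            rw [Finset.sum_comm]
            refine Finset.sum_congr rfl fun a _ => Finset.sum_congr rfl fun ω _ => ?_
            have : (fun i => M i + ∑ k : Fin n, Y k.succ (ω k) i + Y 0 a i)
                = (fun i => M i + (Y 0 a i + ∑ k : Fin n, Y k.succ (ω k) i)) := by
              funext i; ring
            rw [this]; ring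
          rw [this]
          ring

/-- Sudakov–Fernique comparison for normalised sums of `n` i.i.d. copies (finite uniform
probability spaces), with error `O(n^{-1/2})`. -/
theorem lse_sudakov_fernique {Ω Ω' : Type*} [Fintype Ω] [Fintype Ω'] [Nonempty Ω] [Nonempty Ω']
    {s : Finset ι} {w : ι → ℝ}
    (hw : ∀ i ∈ s, 0 ≤ w i) (hw' : 0 < ∑ i ∈ s, w i) {b : ℝ} (hb : 0 < b) {n : ℕ} (hn : 0 < n)
    (X : Ω → ι → ℝ) (Y : Ω' → ι → ℝ)
    (hX0 : ∀ i ∈ s, ∑ ω, X ω i = 0) (hY0 : ∀ i ∈ s, ∑ ω, Y ω i = 0)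
    (hXY : ∀ i ∈ s, ∀ j ∈ s,
      (Fintype.card Ω : ℝ)⁻¹ * ∑ ω, (X ω i - X ω j) ^ 2
        ≤ (Fintype.card Ω' : ℝ)⁻¹ * ∑ ω, (Y ω i - Y ω j) ^ 2)
    {V W : ℝ} (hV : ∀ ω, ∀ i ∈ s, |X ω i| ≤ V) (hW : ∀ ω, ∀ i ∈ s, |Y ω i| ≤ W) :
    ((Fintype.card Ω : ℝ) ^ n)⁻¹ * ∑ ω : Fin n → Ω,
        lse s w b (fun i => (∑ k, X (ω k) i) / Real.sqrt n)
      ≤ ((Fintype.card Ω' : ℝ) ^ n)⁻¹ * ∑ ω : Fin n → Ω',
        lse s w b (fun i => (∑ k, Y (ω k) i) / Real.sqrt n)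
        + b ^ 2 * (V ^ 3 + W ^ 3) / Real.sqrt n := by
  have hsn : 0 < Real.sqrt n := Real.sqrt_pos.2 (by exact_mod_cast hn)
  have hcX : (Fintype.card Ω : ℝ) ≠ 0 := by exact_mod_cast Fintype.card_ne_zero
  have hcY : (Fintype.card Ω' : ℝ) ≠ 0 := by exact_mod_cast Fintype.card_ne_zero
  have key := lse_lindeberg hw hw' hb (n := n)
    (fun _ _ => (Fintype.card Ω : ℝ)⁻¹) (fun _ _ => by positivity)
    (fun _ => by simp [hcX])
    (fun _ _ => (Fintype.card Ω' : ℝ)⁻¹) (fun _ _ => by positivity)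
    (fun _ => by simp [hcY])
    (fun _ ω i => X ω i / Real.sqrt n) (fun _ ω i => Y ω i / Real.sqrt n)
    (fun _ i hi => by
      rw [← Finset.mul_sum, ← Finset.sum_div, hX0 i hi]; simp)
    (fun _ i hi => by
      rw [← Finset.mul_sum, ← Finset.sum_div, hY0 i hi]; simp)
    (fun _ i hi j hj => by
      simp only [← sub_div, div_pow, Real.sq_sqrt (Nat.cast_nonneg n)]
      rw [← Finset.mul_sum, ← Finset.mul_sum, ← Finset.sum_div, ← Finset.sum_div,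
        ← mul_div_assoc, ← mul_div_assoc]
      exact div_le_div_of_nonneg_right (hXY i hi j hj) (Nat.cast_nonneg n))
    (fun _ _ => V / Real.sqrt n)
    (fun _ ω i hi => by
      rw [abs_div, abs_of_pos hsn]; gcongr; exact hV ω i hi)
    (fun _ _ => W / Real.sqrt n)
    (fun _ ω i hi => by
      rw [abs_div, abs_of_pos hsn]; gcongr; exact hW ω i hi) (fun _ => 0)
  simp only [zero_add, Finset.prod_const, Finset.card_univ, Fintype.card_fin,
    ← Finset.sum_div, ← Finset.mul_sum, Finset.sum_const, nsmul_eq_mul] at key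
  rw [inv_pow, inv_pow] at key
  refine key.trans (le_of_eq ?_)
  congr 1
  have h3 : Real.sqrt n ^ 2 = n := Real.sq_sqrt (Nat.cast_nonneg n)
  have hn' : (n : ℝ) ≠ 0 := by exact_mod_cast hn.ne'
  rw [← mul_assoc ((Fintype.card Ω : ℝ)⁻¹), ← mul_assoc ((Fintype.card Ω' : ℝ)⁻¹),
    inv_mul_cancel₀ hcX, inv_mul_cancel₀ hcY, one_mul, one_mul]
  field_simp
  rw [h3]

/-- lower bound: the smoothed maximum dominates each (weighted) coordinate. -/
theorem le_lse {s : Finset ι} {w : ι → ℝ} (hw : ∀ i ∈ s, 0 ≤ w i) {b : ℝ} (hb : 0 < b)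
    (M : ι → ℝ) {i : ι} (hi : i ∈ s) (hwi : 0 < w i) :
    M i + (1 / b) * Real.log (w i) ≤ lse s w b M := by
  unfold lse
  have h1 : w i * Real.exp (b * M i) ≤ ∑ j ∈ s, w j * Real.exp (b * M j) :=
    Finset.single_le_sum (f := fun j => w j * Real.exp (b * M j))
      (fun j hj => mul_nonneg (hw j hj) (Real.exp_pos _).le) hi
  have h2 := Real.log_le_log (by positivity) h1
  rw [Real.log_mul hwi.ne' (Real.exp_pos _).ne', Real.log_exp] at h2
  have h3 := mul_le_mul_of_nonneg_left h2 (by positivity : (0:ℝ) ≤ 1 / b)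
  calc M i + 1 / b * Real.log (w i) = 1 / b * (Real.log (w i) + b * M i) := by
        field_simp; ring
    _ ≤ _ := h3

/-- upper bound for the smoothed maximum. -/
theorem lse_le {s : Finset ι} {w : ι → ℝ} (hw : ∀ i ∈ s, 0 ≤ w i) (hw' : 0 < ∑ i ∈ s, w i)
    {b : ℝ} (hb : 0 < b) (M : ι → ℝ) {A : ℝ} (hA : ∀ i ∈ s, M i ≤ A) :
    lse s w b M ≤ A + (1 / b) * Real.log (∑ i ∈ s, w i) := by
  unfold lse
  have h1 : ∑ j ∈ s, w j * Real.exp (b * M j) ≤ (∑ i ∈ s, w i) * Real.exp (b * A) := by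
    rw [Finset.sum_mul]
    refine Finset.sum_le_sum fun j hj => ?_
    have := hw j hj
    have := hA j hj
    gcongr
  have h2 := Real.log_le_log (part_pos hw hw' (fun j => b * M j)) h1
  rw [Real.log_mul hw'.ne' (Real.exp_pos _).ne', Real.log_exp] at h2
  have h3 := mul_le_mul_of_nonneg_left h2 (by positivity : (0:ℝ) ≤ 1 / b)
  calc _ ≤ 1 / b * (Real.log (∑ i ∈ s, w i) + b * A) := h3
    _ = _ := by field_simp; ring

end Pool.Agent.H64.LSE
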